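import Mathlib
import Pool.Agent.Helper35.MS.StE

/-!
Project MS (MP_925021_gt), module HAR: potential estimate.
-/

set_option autoImplicit false

namespace Pool.Agent.Helper64.MS

open Helper35.MS Helper35.PI Helper35.PI2 Helper32.CL
open scoped ContDiff Manifold Topology ENNReal BigOperators
open MeasureTheory Set Filter

/-- the optimisation over `R` -/
private theorem opt (I W m : ℝ) (hW : 0 ≤ W) (hm : 0 ≤ m)
    (h : ∀ R : ℝ, 0 < R → I ≤ R * W / 2 + m / R) : I ≤ Real.sqrt (2 * W * m) := by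
  rcases le_or_gt I 0 with hI | hI
  · exact hI.trans (Real.sqrt_nonneg _)
  apply Real.le_sqrt_of_sq_le
  rcases hW.eq_or_lt with h0 | h0
  · exfalso
    have h1 := h ((m + 1) / I) (by positivity)
    rw [← h0] at h1
    have h2 : m / ((m + 1) / I) = m * I / (m + 1) := by
      have : m + 1 ≠ 0 := by positivity
      field_simp
    rw [h2, mul_zero, zero_div, zero_add, le_div_iff₀ (by positivity)] at h1
    nlinarith
  · have h1 := h (I / W) (by positivity)
    have h2 : I / W * W / 2 = I / 2 := by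
      field_simp
    have h3 : m / (I / W) = m * W / I := by
      field_simp
    rw [h2, h3] at h1
    have h4 : I / 2 ≤ m * W / I := by linarith
    rw [le_div_iff₀ hI] at h4
    nlinarith

/-- the function `√S + S/R`, `S = s + b` -/
private noncomputable def gg (b R s : ℝ) : ℝ := Real.sqrt (s + b) + (s + b) / R

private theorem gg_pos {b R s : ℝ} (hR : 0 < R) (hs : 0 < s + b) : 0 < gg b R s := by
  unfold gg
  have := Real.sqrt_pos.2 hs
  positivity

/-- a global smooth function equal to `1/(√S + S/R)` for `s ≥ 0` -/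
private noncomputable def zt (b R s : ℝ) : ℝ :=
  Real.smoothTransition (1 + 2 * s / b) * (gg b R s)⁻¹

private theorem zt_eq {b R s : ℝ} (hb : 0 < b) (hs : 0 ≤ s) : zt b R s = (gg b R s)⁻¹ := by
  unfold zt
  rw [Real.smoothTransition.one_of_one_le, one_mul]
  have : 0 ≤ 2 * s / b := by positivity
  linarith

private theorem zt_contDiff {b R : ℝ} (hb : 0 < b) (hR : 0 < R) : ContDiff ℝ 1 (zt b R) := by
  rw [contDiff_iff_contDiffAt]
  intro s
  rcases lt_or_ge (-b) s with h | h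
  · apply ContDiffAt.mul
    · exact (Real.smoothTransition.contDiff (n := 1)).contDiffAt.comp s (by fun_prop)
    · apply ContDiffAt.inv
      · unfold gg
        apply ContDiffAt.add
        · apply ContDiffAt.sqrt (by fun_prop)
          linarith
        · fun_prop
      · exact (gg_pos hR (by linarith)).ne'
  · have hev : zt b R =ᶠ[𝓝 s] fun _ => 0 := by
      have hlt : s < -b / 2 := by linarith
      filter_upwards [Iio_mem_nhds hlt] with u hu
      unfold zt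
      rw [Real.smoothTransition.zero_of_nonpos, zero_mul]
      have hu' : u < -b / 2 := hu
      have : 2 * u / b ≤ -1 := by
        rw [div_le_iff₀ hb]
        linarith
      linarith
    exact contDiffAt_const.congr_of_eventuallyEq hev

private theorem zt_deriv {b R s : ℝ} (hb : 0 < b) (hR : 0 < R) (hs : 0 ≤ s) :
    deriv (zt b R) s = -((1 / (2 * Real.sqrt (s + b)) + 1 / R) / (gg b R s) ^ 2) := by
  have h1 : HasDerivWithinAt (zt b R) (deriv (zt b R) s) (Ici s) s :=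
    ((zt_contDiff hb hR).differentiable (by norm_num) s).hasDerivAt.hasDerivWithinAt
  have h2 : HasDerivAt (fun u : ℝ => (gg b R u)⁻¹)
      (-((1 / (2 * Real.sqrt (s + b)) + 1 / R) / (gg b R s) ^ 2)) s := by
    have h3 : HasDerivAt (fun u : ℝ => u + b) 1 s := (hasDerivAt_id s).add_const b
    have h4 : HasDerivAt (fun u : ℝ => Real.sqrt (u + b)) (1 / (2 * Real.sqrt (s + b))) s :=
      h3.sqrt (by linarith : s + b ≠ 0)
    have h5 : HasDerivAt (fun u : ℝ => gg b R u) (1 / (2 * Real.sqrt (s + b)) + 1 / R) s := by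
      unfold gg
      exact h4.add (h3.div_const R)
    have h6 := h5.fun_inv (gg_pos hR (by linarith : 0 < s + b)).ne'
    rw [neg_div] at h6
    exact h6
  have h5 : HasDerivWithinAt (zt b R)
      (-((1 / (2 * Real.sqrt (s + b)) + 1 / R) / (gg b R s) ^ 2)) (Ici s) s := by
    apply h2.hasDerivWithinAt.congr_of_mem
    · intro u hu
      exact zt_eq hb (le_trans hs hu)
    · exact self_mem_Ici
  exact (uniqueDiffWithinAt_Ici s).eq_deriv _ h1 h5

/-- the pointwise inequality -/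
private theorem pwr (s r a h Q R : ℝ) (hQ : 0 < Q) (hR : 0 < R) (hrs : r ≤ s)
    (hsQ : s ≤ Q ^ 2) (ha : a ^ 2 ≤ h ^ 2 * (s - r)) :
    1 / (Q * (1 + Q / R) ^ 2) - R / 8 * h ^ 2 ≤
      2 * (Q + Q ^ 2 / R)⁻¹ + 2 * (-((1 / (2 * Q) + 1 / R) / (Q + Q ^ 2 / R) ^ 2)) * r
        + (Q + Q ^ 2 / R)⁻¹ * a := by
  obtain ⟨G, hG⟩ : ∃ G, G = Q + Q ^ 2 / R := ⟨_, rfl⟩
  obtain ⟨D, hD⟩ : ∃ D, D = 1 / (2 * Q) + 1 / R := ⟨_, rfl⟩
  have hG0 : 0 < G := by rw [hG]; positivity
  have hD0 : 0 < D := by rw [hD]; positivity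
  have hDR : 1 / D ≤ R := by
    rw [div_le_iff₀ hD0, hD]
    have h1 : R * (1 / (2 * Q) + 1 / R) = R / (2 * Q) + 1 := by
      field_simp
    rw [h1]
    have : 0 ≤ R / (2 * Q) := by positivity
    linarith
  have hw : 0 ≤ s - r := by linarith
  rw [← hG, ← hD]
  have e1 : 1 / (Q * (1 + Q / R) ^ 2) = Q / G ^ 2 := by
    rw [hG]
    have : Q + Q ^ 2 / R = Q * (1 + Q / R) := by
      field_simp
    rw [this]
    have h2 : 1 + Q / R ≠ 0 := by positivity
    field_simp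
  -- Cauchy-Schwarz
  have h1 : -(2 * D / G ^ 2 * (s - r) + h ^ 2 / (8 * D)) ≤ G⁻¹ * a := by
    have hnn : 0 ≤ 2 * D / G ^ 2 * (s - r) + h ^ 2 / (8 * D) := by positivity
    have hsq : (G⁻¹ * a) ^ 2 ≤ (2 * D / G ^ 2 * (s - r) + h ^ 2 / (8 * D)) ^ 2 := by
      have h3 : (G⁻¹ * a) ^ 2 ≤ G⁻¹ ^ 2 * (h ^ 2 * (s - r)) := by
        rw [mul_pow]
        exact mul_le_mul_of_nonneg_left ha (by positivity)
      have h4 : G⁻¹ ^ 2 * (h ^ 2 * (s - r)) =
          4 * (2 * D / G ^ 2 * (s - r)) * (h ^ 2 / (8 * D)) := by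
        field_simp
        ring
      rw [h4] at h3
      refine h3.trans ?_
      nlinarith [sq_nonneg (2 * D / G ^ 2 * (s - r) - h ^ 2 / (8 * D))]
    exact (abs_le_of_sq_le_sq' hsq hnn).1
  have h2 : h ^ 2 / (8 * D) ≤ R / 8 * h ^ 2 := by
    have h3 : h ^ 2 / (8 * D) = h ^ 2 / 8 * (1 / D) := by
      field_simp
    rw [h3]
    have h4 : h ^ 2 / 8 * (1 / D) ≤ h ^ 2 / 8 * R := mul_le_mul_of_nonneg_left hDR (by positivity)
    linarith
  have h3 : Q / G ^ 2 ≤ 2 * G⁻¹ - 2 * D / G ^ 2 * s := by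
    have h4 : 2 * G⁻¹ - 2 * D / G ^ 2 * s = (2 * G - 2 * D * s) / G ^ 2 := by
      field_simp
    rw [h4]
    apply div_le_div_of_nonneg_right _ (by positivity)
    have h5 : D * s ≤ D * Q ^ 2 := mul_le_mul_of_nonneg_left hsQ hD0.le
    have h6 : 2 * G - 2 * (D * Q ^ 2) = Q := by
      rw [hG, hD]
      field_simp
      ring
    linarith
  rw [e1]
  have h4 : 2 * G⁻¹ + 2 * (-(D / G ^ 2)) * r + G⁻¹ * a =
      (2 * G⁻¹ - 2 * D / G ^ 2 * s) + (G⁻¹ * a + 2 * D / G ^ 2 * (s - r)) := by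
    ring
  rw [h4]
  linarith

private theorem pw1 (Q R : ℝ) (hQ : 0 < Q) (hR : 0 < R) :
    1 / Q ≤ 4 * (1 / (Q * (1 + Q / R) ^ 2)) + 1 / R := by
  rcases le_total Q R with h | h
  · have h1 : Q / R ≤ 1 := (div_le_one hR).2 h
    have h0 : 0 ≤ Q / R := by positivity
    have h2 : (1 + Q / R) ^ 2 ≤ 4 := by nlinarith
    have h3 : 1 / Q ≤ 4 * (1 / (Q * (1 + Q / R) ^ 2)) := by
      rw [mul_one_div, div_le_div_iff₀ hQ (by positivity)]
      nlinarith
    have h4 : 0 ≤ 1 / R := by positivity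
    linarith
  · have h1 : 1 / Q ≤ 1 / R := one_div_le_one_div_of_le hR h
    have h2 : 0 ≤ 4 * (1 / (Q * (1 + Q / R) ^ 2)) := by positivity
    linarith

/-- a slice of a continuous function of space time is continuous -/
private theorem sl {M E : Type} [TopologicalSpace M] [TopologicalSpace E] (J : Set ℝ) (G : M → ℝ → E)
    (hG : ContinuousOn (fun z : M × ℝ => G z.1 z.2) (univ ×ˢ J)) (t : ℝ) (ht : t ∈ J) :
    Continuous fun q => G q t := by
  have hslice : Continuous (fun q : M => ((q, t) : M × ℝ)) := by fun_prop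
  have hmaps : ∀ q : M, ((q, t) : M × ℝ) ∈ (univ : Set M) ×ˢ J := fun q => ⟨mem_univ _, ht⟩
  exact hG.comp_continuous hslice hmaps

/-- the measure theoretic part -/
private theorem core {M : Type} [TopologicalSpace M] [MeasurableSpace M] [BorelSpace M]
    (μ : Measure M) [IsFiniteMeasure μ]
    (hint : ∀ g : M → ℝ, Continuous g → Integrable g μ) (ρ : M → ℝ) (hρ : Continuous ρ)
    (hρ0 : ∀ p, 0 ≤ ρ p) (W : ℝ) (hW : 0 ≤ W)
    (hm : ∀ ε R : ℝ, 0 < ε → 0 < R →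
      ∫ p, 1 / (Real.sqrt (ρ p ^ 2 + ε ^ 2) * (1 + Real.sqrt (ρ p ^ 2 + ε ^ 2) / R) ^ 2) ∂μ
        ≤ R / 8 * W) (P : Set M) :
    ∫⁻ p in P, ENNReal.ofReal (1 / ρ p) ∂μ ≤ ENNReal.ofReal (Real.sqrt (2 * W * μ.real P)) := by
  have hQ : ∀ ε : ℝ, 0 < ε → ∀ p, 0 < Real.sqrt (ρ p ^ 2 + ε ^ 2) := fun ε hε p =>
    Real.sqrt_pos.2 (by positivity)
  have hQc : ∀ ε : ℝ, Continuous fun p => Real.sqrt (ρ p ^ 2 + ε ^ 2) := fun ε => by fun_prop
  have hI : ∀ ε : ℝ, 0 < ε →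
      ∫ p in P, 1 / Real.sqrt (ρ p ^ 2 + ε ^ 2) ∂μ ≤ Real.sqrt (2 * W * μ.real P) := by
    intro ε hε
    apply opt _ _ _ hW measureReal_nonneg
    intro R hR
    have hc1 : Continuous fun p => 1 / Real.sqrt (ρ p ^ 2 + ε ^ 2) :=
      continuous_const.div (hQc ε) fun p => (hQ ε hε p).ne'
    have hc2 : Continuous fun p => 1 / (Real.sqrt (ρ p ^ 2 + ε ^ 2) *
        (1 + Real.sqrt (ρ p ^ 2 + ε ^ 2) / R) ^ 2) := by
      apply continuous_const.div
      · exact (hQc ε).mul ((continuous_const.add ((hQc ε).div_const R)).pow 2)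
      · intro p
        have := hQ ε hε p
        positivity
    have hi1 := hint _ hc1
    have hi2 := hint _ hc2
    have h1 : ∫ p in P, 1 / Real.sqrt (ρ p ^ 2 + ε ^ 2) ∂μ ≤
        ∫ p in P, (4 * (1 / (Real.sqrt (ρ p ^ 2 + ε ^ 2) *
          (1 + Real.sqrt (ρ p ^ 2 + ε ^ 2) / R) ^ 2)) + 1 / R) ∂μ := by
      apply setIntegral_mono hi1.integrableOn
      · exact ((hi2.const_mul 4).add (integrable_const _)).integrableOn
      · intro p
        exact pw1 _ R (hQ ε hε p) hR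
    have h2 : ∫ p in P, (4 * (1 / (Real.sqrt (ρ p ^ 2 + ε ^ 2) *
          (1 + Real.sqrt (ρ p ^ 2 + ε ^ 2) / R) ^ 2)) + 1 / R) ∂μ =
        4 * ∫ p in P, (1 / (Real.sqrt (ρ p ^ 2 + ε ^ 2) *
          (1 + Real.sqrt (ρ p ^ 2 + ε ^ 2) / R) ^ 2)) ∂μ + μ.real P / R := by
      rw [integral_add (hi2.const_mul 4).integrableOn (integrable_const _), integral_const_mul,
        setIntegral_const, smul_eq_mul, mul_one_div]
    have h3 : ∫ p in P, (1 / (Real.sqrt (ρ p ^ 2 + ε ^ 2) *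
          (1 + Real.sqrt (ρ p ^ 2 + ε ^ 2) / R) ^ 2)) ∂μ ≤
        ∫ p, (1 / (Real.sqrt (ρ p ^ 2 + ε ^ 2) *
          (1 + Real.sqrt (ρ p ^ 2 + ε ^ 2) / R) ^ 2)) ∂μ := by
      apply setIntegral_le_integral hi2
      filter_upwards with p
      have := hQ ε hε p
      change 0 ≤ 1 / _
      positivity
    have h4 := hm ε R hε hR
    rw [h2] at h1
    linarith
  have hL : ∀ ε : ℝ, 0 < ε →
      ∫⁻ p in P, ENNReal.ofReal (1 / Real.sqrt (ρ p ^ 2 + ε ^ 2)) ∂μ ≤
        ENNReal.ofReal (Real.sqrt (2 * W * μ.real P)) := by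
    intro ε hε
    have hc1 : Continuous fun p => 1 / Real.sqrt (ρ p ^ 2 + ε ^ 2) :=
      continuous_const.div (hQc ε) fun p => (hQ ε hε p).ne'
    rw [← ofReal_integral_eq_lintegral_ofReal (hint _ hc1).integrableOn
      (Eventually.of_forall fun p => by
        have := hQ ε hε p
        change 0 ≤ 1 / _
        positivity)]
    exact ENNReal.ofReal_le_ofReal (hI ε hε)
  -- Fatou
  have hlim : ∀ p, ENNReal.ofReal (1 / ρ p) ≤
      liminf (fun n : ℕ => ENNReal.ofReal (1 / Real.sqrt (ρ p ^ 2 + (1 / ((n : ℝ) + 1)) ^ 2)))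
        atTop := by
    intro p
    rcases (hρ0 p).eq_or_lt with h0 | h0
    · rw [← h0]
      simp
    · have ht : Tendsto (fun n : ℕ => ENNReal.ofReal
          (1 / Real.sqrt (ρ p ^ 2 + (1 / ((n : ℝ) + 1)) ^ 2))) atTop
          (𝓝 (ENNReal.ofReal (1 / ρ p))) := by
        apply ENNReal.tendsto_ofReal
        have h1 : Tendsto (fun n : ℕ => 1 / ((n : ℝ) + 1)) atTop (𝓝 0) :=
          tendsto_one_div_add_atTop_nhds_zero_nat
        have h2 : Tendsto (fun n : ℕ => Real.sqrt (ρ p ^ 2 + (1 / ((n : ℝ) + 1)) ^ 2)) atTop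
            (𝓝 (Real.sqrt (ρ p ^ 2 + 0 ^ 2))) :=
          (Real.continuous_sqrt.tendsto _).comp (tendsto_const_nhds.add (h1.pow 2))
        have h3 : Real.sqrt (ρ p ^ 2 + 0 ^ 2) = ρ p := by
          rw [zero_pow (by norm_num), add_zero, Real.sqrt_sq h0.le]
        rw [h3] at h2
        exact tendsto_const_nhds.div h2 h0.ne'
      rw [ht.liminf_eq]
  calc ∫⁻ p in P, ENNReal.ofReal (1 / ρ p) ∂μ
      ≤ ∫⁻ p in P, liminf (fun n : ℕ => ENNReal.ofReal
          (1 / Real.sqrt (ρ p ^ 2 + (1 / ((n : ℝ) + 1)) ^ 2))) atTop ∂μ :=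
        lintegral_mono hlim
    _ ≤ liminf (fun n : ℕ => ∫⁻ p in P, ENNReal.ofReal
          (1 / Real.sqrt (ρ p ^ 2 + (1 / ((n : ℝ) + 1)) ^ 2)) ∂μ) atTop := by
        apply lintegral_liminf_le
        intro n
        have hn : (0 : ℝ) < 1 / ((n : ℝ) + 1) := by positivity
        apply ENNReal.measurable_ofReal.comp
        apply Continuous.measurable
        exact continuous_const.div (hQc _) fun p => (hQ _ hn p).ne'
    _ ≤ ENNReal.ofReal (Real.sqrt (2 * W * μ.real P)) := by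
        apply liminf_le_of_frequently_le'
        apply Eventually.frequently
        filter_upwards with n
        exact hL _ (by positivity)

theorem hHAR (hPRJ : StPRJ) (hFVJ : StFVJ) (hMUJ : StMUJ) (hI4J : StI4J) : StHAR := by
  intro N M _ _ _ _ _ _ _ J F c χ hS t ht P hP y
  have hF : Continuous (fun q => F q t) := sl J F (hI4J 2 N M J F hS.mcf).1 t ht
  have hH : Continuous (fun q => HH (n := 2) F q t) :=
    sl J (HH (n := 2) F) (hI4J 2 N M J F hS.mcf).2.1 t ht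
  obtain ⟨σ, -, hσ⟩ := hMUJ 2 N M J F c χ hS
  have hint : ∀ g : M → ℝ, Continuous g → Integrable g (muM 2 F c χ t) :=
    fun g hg => ((hσ t ht).2.2 g hg).1
  have : IsFiniteMeasure (muM 2 F c χ t) := ⟨(hσ t ht).1⟩
  have hW : 0 ≤ wI F c χ t := integral_nonneg fun q => sq_nonneg _
  apply core (muM 2 F c χ t) hint (fun q => ‖F q t - y‖) ((hF.sub continuous_const).norm)
    (fun p => norm_nonneg _) _ hW _ P
  intro ε R hε hR
  obtain ⟨-, -, -, -, h5⟩ := hPRJ 2 N M J F hS.mcf t ht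
  obtain ⟨r, hr, -, hX⟩ := h5 y
  have hb : (0 : ℝ) < ε ^ 2 := by positivity
  obtain ⟨hXs, -, -, hXd⟩ := hX (zt (ε ^ 2) R) (zt_contDiff hb hR)
  obtain ⟨hdc, hd0⟩ := hFVJ 2 N M J F c χ hS t ht _ hXs
  have hρc : Continuous (fun q => ‖F q t - y‖) := (hF.sub continuous_const).norm
  have hQ : ∀ p, 0 < Real.sqrt (‖F p t - y‖ ^ 2 + ε ^ 2) := fun p =>
    Real.sqrt_pos.2 (by positivity)
  have hQc : Continuous fun p => Real.sqrt (‖F p t - y‖ ^ 2 + ε ^ 2) :=
    ((hρc.pow 2).add continuous_const).sqrt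
  have hc2 : Continuous fun p => 1 / (Real.sqrt (‖F p t - y‖ ^ 2 + ε ^ 2) *
      (1 + Real.sqrt (‖F p t - y‖ ^ 2 + ε ^ 2) / R) ^ 2) := by
    apply continuous_const.div
    · exact hQc.mul ((continuous_const.add (hQc.div_const R)).pow 2)
    · intro p
      have := hQ p
      positivity
  have hc3 : Continuous fun p => R / 8 * YF F p t := continuous_const.mul (hH.norm.pow 2)
  have hc4 : Continuous fun p => dvg (n := 2) F
      (fun q => zt (ε ^ 2) R (‖F q t - y‖ ^ 2) • (F q t - y)) p t +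
      inner ℝ (HH (n := 2) F p t) (zt (ε ^ 2) R (‖F p t - y‖ ^ 2) • (F p t - y)) :=
    hdc.add (Continuous.inner (𝕜 := ℝ) hH hXs.continuous)
  have hi2 := hint _ hc2
  have hi3 := hint _ hc3
  have hi4 := hint _ hc4
  have h1 : ∫ p, (1 / (Real.sqrt (‖F p t - y‖ ^ 2 + ε ^ 2) *
      (1 + Real.sqrt (‖F p t - y‖ ^ 2 + ε ^ 2) / R) ^ 2) - R / 8 * YF F p t)
        ∂muM 2 F c χ t ≤ 0 := by
    rw [← hd0]
    apply integral_mono (hi2.sub hi3) hi4
    intro p
    have hs0 : 0 ≤ ‖F p t - y‖ ^ 2 := by positivity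
    have hsq : Real.sqrt (‖F p t - y‖ ^ 2 + ε ^ 2) ^ 2 = ‖F p t - y‖ ^ 2 + ε ^ 2 :=
      Real.sq_sqrt (by positivity)
    have hz : zt (ε ^ 2) R (‖F p t - y‖ ^ 2) =
        (Real.sqrt (‖F p t - y‖ ^ 2 + ε ^ 2) +
          Real.sqrt (‖F p t - y‖ ^ 2 + ε ^ 2) ^ 2 / R)⁻¹ := by
      rw [zt_eq hb hs0, hsq]
      rfl
    have hz' : deriv (zt (ε ^ 2) R) (‖F p t - y‖ ^ 2) =
        -((1 / (2 * Real.sqrt (‖F p t - y‖ ^ 2 + ε ^ 2)) + 1 / R) /
          (Real.sqrt (‖F p t - y‖ ^ 2 + ε ^ 2) +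
          Real.sqrt (‖F p t - y‖ ^ 2 + ε ^ 2) ^ 2 / R) ^ 2) := by
      rw [zt_deriv hb hR hs0, hsq]
      rfl
    have e2 := hXd p
    rw [hz, hz'] at e2
    change _ ≤ dvg (n := 2) F
      (fun q => zt (ε ^ 2) R (‖F q t - y‖ ^ 2) • (F q t - y)) p t +
      inner ℝ (HH (n := 2) F p t) (zt (ε ^ 2) R (‖F p t - y‖ ^ 2) • (F p t - y))
    rw [e2, hz, inner_smul_right]
    have e3 := pwr (‖F p t - y‖ ^ 2) (r p) (inner ℝ (HH (n := 2) F p t) (F p t - y))
      ‖HH (n := 2) F p t‖ (Real.sqrt (‖F p t - y‖ ^ 2 + ε ^ 2)) R (hQ p) hR (hr p).2.1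
      (by rw [hsq]; linarith [sq_nonneg ε]) (hr p).2.2
    push_cast
    exact e3
  rw [integral_sub hi2 hi3, integral_const_mul] at h1
  have h2 : wI F c χ t = ∫ p, YF F p t ∂muM 2 F c χ t := rfl
  rw [h2]
  linarith

end Pool.Agent.Helper64.MS
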